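import Pool.Agent.Helper88_SA.StmtP

namespace SA.H63

open Finset

/-! foldl as finite sums and maxima -/

theorem foldl_sum (f : ℕ → ℕ) (n : ℕ) (s : ℕ) :
    (List.range n).foldl (fun s q => s + f q) s = s + ∑ q ∈ Finset.range n, f q := by
  induction n with
  | zero => simp
  | succ n ih =>
    rw [List.range_succ, List.foldl_append, ih, Finset.sum_range_succ]
    simp only [List.foldl_cons, List.foldl_nil]
    ring

theorem foldl_max_le (F : ℕ → ℕ) (n : ℕ) (e : ℕ) (he : e < n) :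
    F e ≤ (List.range n).foldl (fun m e => max m (F e)) 0 := by
  induction n with
  | zero => omega
  | succ n ih =>
    rw [List.range_succ, List.foldl_append]
    simp only [List.foldl_cons, List.foldl_nil]
    rcases Nat.lt_succ_iff_lt_or_eq.1 he with h | h
    · exact le_trans (ih h) (le_max_left _ _)
    · subst h
      exact le_max_right _ _

theorem e1sum_eq (c : ℤ) : e1sum c = ∑ q ∈ Finset.range 26, (10 ^ 4 + q + 1) *
    ∑ i ∈ Finset.range 13, e1term q c (lminq q c + i) := by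
  unfold e1sum
  rw [foldl_sum (fun q => (10 ^ 4 + q + 1) *
    (List.range 13).foldl (fun t i => t + e1term q c (lminq q c + i)) 0)]
  rw [zero_add]
  refine Finset.sum_congr rfl (fun q _ => ?_)
  rw [foldl_sum (fun i => e1term q c (lminq q c + i)), zero_add]

theorem lift_eq (n : ℕ) :
    (do let a ← List.range n; pure (a : ℤ)) = (List.range n).map (fun a : ℕ => (a : ℤ)) := by
  simp [List.map_eq_flatMap]

theorem Mq_ge (q : ℕ) (y c : ℤ) (h1 : y + qelo q ≤ c) (h2 : c ≤ y + qehi q) : Dt c ≤ Mq q y := by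
  unfold Mq
  rw [lift_eq, List.foldl_map]
  have h := foldl_max_le (fun e => Dt (y + qelo q + e)) (qehi q - qelo q + 1).toNat
    (c - (y + qelo q)).toNat (by omega)
  have e : y + qelo q + ((c - (y + qelo q)).toNat : ℤ) = c := by omega
  simp only [e] at h
  exact h

theorem qwidth : ∀ q : ℕ, q ≤ 25 → qehi q - qelo q ≤ 25 := by
  intro q hq
  interval_cases q <;> decide

/-- the bound of a past pause, integer form -/
noncomputable def trm (T x0 : ℝ) (th : ℂ) (k k' i : ℕ) : ℕ :=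
  (10 ^ 4 + (cyc T x0 th k - cyc T x0 th i).toNat + 1) * (kap_ (k' - 1 - i) * Dt (cell T x0 th i))

/-- the cells of the past pauses -/
theorem cells {T x0 z : ℝ} {th : ℂ} (hdr : DriftStmt) (hcy : CycbStmt) (hq : IntQ)
    (hctx : Ctx T x0 z th) {k : ℕ} (hH : HH T x0 z th k) {t : ℕ} (ht : t ≤ k)
    (hc : cell T x0 th k + 8 * t < 88) {i : ℕ} (hi : i < k - t) (hl : k - t ≤ i + 1200)
    (hD : Dt (cell T x0 th i) ≠ 0) :
    ∃ q : ℕ, q = (cyc T x0 th k - cyc T x0 th i).toNat ∧ (q : ℤ) = cyc T x0 th k - cyc T x0 th i ∧ q < 26 ∧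
      cell T x0 th k + 8 * t + 8 * (((k - t - 1 - i : ℕ) : ℤ) + 1) - qF q + qelo q ≤ cell T x0 th i ∧
      cell T x0 th i ≤ cell T x0 th k + 8 * t + 8 * (((k - t - 1 - i : ℕ) : ℤ) + 1) - qF q + qehi q ∧
      -47 ≤ cell T x0 th i ∧ cell T x0 th i < 24 := by
  have hcell : -47 ≤ cell T x0 th i ∧ cell T x0 th i < 24 := by
    by_contra hcon
    apply hD
    unfold Dt
    rw [if_neg hcon]
  obtain ⟨hd1, hd2, -⟩ := hdr T x0 z th hctx k hH i k (by omega) le_rfl
  obtain ⟨-, -, hk1, hk2, -⟩ := hcy T x0 z th hctx k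
  obtain ⟨-, -, hi1, hi2, -⟩ := hcy T x0 z th hctx i
  have hper := hctx.nr.per_enc
  obtain ⟨q, hqdef⟩ : ∃ q : ℕ, (q : ℤ) = cyc T x0 th k - cyc T x0 th i :=
    ⟨(cyc T x0 th k - cyc T x0 th i).toNat, by omega⟩
  have hqr : (q : ℝ) = (cyc T x0 th k : ℝ) - cyc T x0 th i := by
    have : ((q : ℤ) : ℝ) = ((cyc T x0 th k - cyc T x0 th i : ℤ) : ℝ) := by rw [hqdef]
    push_cast at this
    exact this
  rw [← hqr] at hd2
  have hq0 : (0 : ℝ) ≤ q := Nat.cast_nonneg _
  obtain ⟨l, hldef⟩ : ∃ l : ℕ, l = k - t - 1 - i := ⟨_, rfl⟩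
  have hkl : (k : ℝ) - i = t + (l + 1) := by
    have : k = i + t + (l + 1) := by omega
    rw [this]
    push_cast
    ring
  have hl12 : (l : ℝ) ≤ 1199 := by
    have : l ≤ 1199 := by omega
    exact_mod_cast this
  have hpk : pp T x0 th k = ph T x0 th k + cyc T x0 th k * per th := rfl
  have hpi : pp T x0 th i = ph T x0 th i + cyc T x0 th i * per th := rfl
  rw [hkl] at hd2
  obtain ⟨hd3, hd4⟩ := abs_le.1 hd2
  obtain ⟨hp1, hp2⟩ := abs_le.1 hper
  have hqper : (q : ℝ) * per th = cyc T x0 th k * per th - cyc T x0 th i * per th := by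
    rw [hqr]; ring
  have hqp1 : (q : ℝ) * (48.855782394283 - 1 / 10 ^ 9) ≤ (q : ℝ) * per th :=
    mul_le_mul_of_nonneg_left (by linarith) hq0
  have hqp2 : (q : ℝ) * per th ≤ (q : ℝ) * (48.855782394283 + 1 / 10 ^ 9) :=
    mul_le_mul_of_nonneg_left (by linarith) hq0
  have hcr : (cell T x0 th k : ℝ) + 8 * t ≤ 87 := by
    have h : cell T x0 th k + 8 * t ≤ 87 := by omega
    exact_mod_cast h
  have hcellr : (-47 : ℝ) ≤ (cell T x0 th i : ℝ) := by exact_mod_cast hcell.1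
  have hq26 : q < 26 := by
    by_contra hcon
    push Not at hcon
    have : (26 : ℝ) ≤ q := by exact_mod_cast hcon
    linarith
  refine ⟨q, by omega, hqdef, hq26, ?_, ?_, hcell.1, hcell.2⟩
  · have hlo := hq.lo q (by omega)
    rw [← hldef]
    have : cell T x0 th k + 8 * t + 8 * ((l : ℤ) + 1) - qF q + qelo q < cell T x0 th i + 1 := by
      have h : (((cell T x0 th k + 8 * t + 8 * ((l : ℤ) + 1) - qF q + qelo q : ℤ)) : ℝ)
          < ((cell T x0 th i + 1 : ℤ) : ℝ) := by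
        push_cast
        linarith
      exact_mod_cast h
    omega
  · have hhi := hq.hi q (by omega)
    rw [← hldef]
    have : cell T x0 th i < cell T x0 th k + 8 * t + 8 * ((l : ℤ) + 1) - qF q + qehi q + 1 := by
      have h : ((cell T x0 th i : ℤ) : ℝ)
          < (((cell T x0 th k + 8 * t + 8 * ((l : ℤ) + 1) - qF q + qehi q + 1 : ℤ)) : ℝ) := by
        push_cast
        linarith
      exact_mod_cast h
    omega

/-- the sum over the past pauses in integers -/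
theorem sum_trm {T x0 z : ℝ} {th : ℂ} (hdr : DriftStmt) (hcy : CycbStmt) (b : NumA)
    (hctx : Ctx T x0 z th) {k : ℕ} (hH : HH T x0 z th k) {t : ℕ} (ht : t ≤ k)
    (hc : cell T x0 th k + 8 * t < 88) :
    ∑ i ∈ (Finset.range (k - t)).filter (fun i => k - t ≤ i + 1200), trm T x0 th k (k - t) i
      ≤ e1sum (cell T x0 th k + 8 * t) := by
  classical
  obtain ⟨c, hcdef⟩ : ∃ c : ℤ, c = cell T x0 th k + 8 * t := ⟨_, rfl⟩
  rw [← hcdef, e1sum_eq]
  obtain ⟨S, hS⟩ : ∃ S : Finset ℕ, S = ((Finset.range (k - t)).filter (fun i => k - t ≤ i + 1200)).filter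
    (fun i => Dt (cell T x0 th i) ≠ 0) := ⟨_, rfl⟩
  have h1 : ∑ i ∈ (Finset.range (k - t)).filter (fun i => k - t ≤ i + 1200), trm T x0 th k (k - t) i
      = ∑ i ∈ S, trm T x0 th k (k - t) i := by
    rw [hS]
    refine (Finset.sum_filter_of_ne (s := (Finset.range (k - t)).filter (fun i => k - t ≤ i + 1200))
      (p := fun i => Dt (cell T x0 th i) ≠ 0) (fun i _ h0 h2 => h0 ?_)).symm
    unfold trm
    rw [h2, Nat.mul_zero, Nat.mul_zero]
  rw [h1]
  have hmem : ∀ i ∈ S, i < k - t ∧ k - t ≤ i + 1200 ∧ Dt (cell T x0 th i) ≠ 0 := by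
    intro i hi
    rw [hS, Finset.mem_filter, Finset.mem_filter, Finset.mem_range] at hi
    exact ⟨hi.1.1, hi.1.2, hi.2⟩
  let φ : ℕ → ℕ × ℕ := fun i => ((cyc T x0 th k - cyc T x0 th i).toNat,
    (k - t - 1 - i) - lminq (cyc T x0 th k - cyc T x0 th i).toNat c)
  let g : ℕ × ℕ → ℕ := fun x => (10 ^ 4 + x.1 + 1) * e1term x.1 c (lminq x.1 c + x.2)
  have hrange : ∀ i ∈ S, φ i ∈ (Finset.range 26) ×ˢ (Finset.range 13) ∧
      lminq (cyc T x0 th k - cyc T x0 th i).toNat c ≤ k - t - 1 - i ∧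
      trm T x0 th k (k - t) i ≤ g (φ i) := by
    intro i hi
    obtain ⟨hi1, hi2, hi3⟩ := hmem i hi
    obtain ⟨q, hq1, hq2, hq3, hq4, hq5, hq6, hq7⟩ := cells hdr hcy b.q hctx hH ht hc hi1 hi2 hi3
    rw [← hcdef] at hq4 hq5
    have hw := qwidth q (by omega)
    obtain ⟨l, hldef⟩ : ∃ l : ℕ, l = k - t - 1 - i := ⟨_, rfl⟩
    rw [← hldef] at hq4 hq5
    have hlm : lminq q c ≤ l := by
      unfold lminq cdiv
      omega
    have hlM : l ≤ lminq q c + 12 := by
      unfold lminq cdiv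
      omega
    refine ⟨?_, ?_, ?_⟩
    · simp only [φ, Finset.mem_product, Finset.mem_range]
      rw [← hq1, ← hldef]
      exact ⟨hq3, by omega⟩
    · rw [← hq1, ← hldef]
      exact hlm
    · simp only [g, φ]
      unfold trm
      rw [← hq1, ← hldef]
      refine Nat.mul_le_mul_left _ ?_
      have e : lminq q c + (l - lminq q c) = l := by omega
      rw [e]
      unfold e1term
      rw [if_pos (by omega)]
      exact Nat.mul_le_mul_left _ (Mq_ge q _ _ hq4 hq5)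
  have hinj : Set.InjOn φ S := by
    intro i hi i2 hi2 heq
    have a1 := (hrange i hi).2.1
    have a2 := (hrange i2 hi2).2.1
    simp only [φ, Prod.mk.injEq] at heq
    obtain ⟨e1, e2⟩ := heq
    rw [← e1] at a2 e2
    have b1 := (hmem i hi).1
    have b2 := (hmem i2 hi2).1
    omega
  calc ∑ i ∈ S, trm T x0 th k (k - t) i ≤ ∑ i ∈ S, g (φ i) :=
        Finset.sum_le_sum (fun i hi => (hrange i hi).2.2)
    _ = ∑ x ∈ S.image φ, g x := (Finset.sum_image hinj).symm
    _ ≤ ∑ x ∈ (Finset.range 26) ×ˢ (Finset.range 13), g x := by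
        refine Finset.sum_le_sum_of_subset ?_
        intro x hx
        rw [Finset.mem_image] at hx
        obtain ⟨i, hi, rfl⟩ := hx
        exact (hrange i hi).1
    _ = ∑ q ∈ Finset.range 26, (10 ^ 4 + q + 1) *
        ∑ i ∈ Finset.range 13, e1term q c (lminq q c + i) := by
        rw [Finset.sum_product]
        refine Finset.sum_congr rfl (fun q _ => ?_)
        rw [Finset.mul_sum]

/-- one past pause -/
theorem one_pause {T x0 z : ℝ} {th : ℂ} (a : AlgA) (b : NumA) (hdr : DriftStmt) (hpr : ProdStmt)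
    (hctx : Ctx T x0 z th) {k : ℕ} (hH : HH T x0 z th k) {t : ℕ} (ht : t ≤ k)
    {i : ℕ} (hi : i < k - t) (hl : k - t ≤ i + 1200) :
    - (∑ d ∈ Finset.Icc (1 : ℕ) 55, pd T (1525 + i) d * Gd T x0 z th d (k - t - 1 - i))
      ≤ Ck T x0 (k - t) * ((trm T x0 th k (k - t) i : ℝ) / 10 ^ 20) := by
  have hik : i < k := by omega
  have hPP := hH i hik
  have hval : ∀ m, m ≤ 1525 + i → Valid T m := by
    intro m hm
    by_cases h : m < 1525
    · exact hctx.sim.valid m h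
    · have := (hH (m - 1525) (by omega)).val
      have e : 1525 + (m - 1525) = m := by omega
      rwa [e] at this
  obtain ⟨hp1, hp2, hp3, -, -⟩ := a.pds T (1525 + i) hval
  have hdm := b.pass.dmax (cell T x0 th i)
  have hkap : kap T (1525 + i) ≤ 9 := le_trans hPP.kle hdm
  have hsum := hp3 (by omega)
  obtain ⟨l, hldef⟩ : ∃ l : ℕ, l = k - t - 1 - i := ⟨_, rfl⟩
  rw [← hldef]
  have hx0 : 0 < x0 := by have := hctx.nr.x0_lo; linarith
  have hX : 0 < x0 ^ (l + 1) := pow_pos hx0 _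
  -- step 1
  have s1 : - (∑ d ∈ Finset.Icc (1 : ℕ) 55, pd T (1525 + i) d * Gd T x0 z th d l)
      ≤ Dn T (1525 + i) * ((kap_ l : ℝ) / 10 ^ 10) / x0 ^ (l + 1) := by
    rw [← hsum, Finset.sum_mul, Finset.sum_div, ← Finset.sum_neg_distrib]
    refine Finset.sum_le_sum (fun d hd => ?_)
    rw [Finset.mem_Icc] at hd
    by_cases h10 : d ≤ 10
    · have htab := b.tab T x0 z th hctx.Tl hctx.Tu hctx.rt d l hd.1 h10 (by omega)
      have hk := (b.kap.kap d l hd.1 h10 (by omega)).1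
      have hpd := (hp1 d hd.1 hd.2).1
      obtain ⟨ht1, -⟩ := abs_le.1 htab
      have hkr : - (gT d l : ℝ) + 2 ≤ (d : ℝ) * (kap_ l : ℝ) := by exact_mod_cast hk
      have hG : - Gd T x0 z th d l * x0 ^ (l + 1) ≤ (d : ℝ) * ((kap_ l : ℝ) / 10 ^ 10) := by
        have : (d : ℝ) * ((kap_ l : ℝ) / 10 ^ 10) = ((d : ℝ) * (kap_ l : ℝ)) / 10 ^ 10 := by ring
        rw [this]
        have h3 : (- (gT d l : ℝ) + 2) / 10 ^ 10 ≤ ((d : ℝ) * (kap_ l : ℝ)) / 10 ^ 10 :=
          div_le_div_of_nonneg_right hkr (by positivity)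
        have h4 : (- (gT d l : ℝ) + 2) / 10 ^ 10 = - ((gT d l : ℝ) / 10 ^ 10) + 2 / 10 ^ 10 := by ring
        rw [h4] at h3
        linarith
      rw [le_div_iff₀ hX]
      have h5 := mul_le_mul_of_nonneg_left hG hpd
      calc - (pd T (1525 + i) d * Gd T x0 z th d l) * x0 ^ (l + 1)
          = pd T (1525 + i) d * (- Gd T x0 z th d l * x0 ^ (l + 1)) := by ring
        _ ≤ pd T (1525 + i) d * ((d : ℝ) * ((kap_ l : ℝ) / 10 ^ 10)) := h5
        _ = (d : ℝ) * pd T (1525 + i) d * ((kap_ l : ℝ) / 10 ^ 10) := by ring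
    · have hz := hp2 d (by omega) hd.2
      rw [hz]
      simp
  -- step 2
  have hC := (hpr T x0 z th hctx k hH).2.2.1 i (k - t) (by omega) (by omega) (by omega)
  have hdr1 := (hdr T x0 z th hctx k hH (k - t) k (by omega) le_rfl).1
  have hdr2 := (hdr T x0 z th hctx k hH i k (by omega) le_rfl).1
  have hCk : 0 < Ck T x0 (k - t) := by
    have := (hpr T x0 z th hctx k hH).1 (1525 + (k - t)) (by omega) (by omega)
    exact this
  have hCi : 0 < Ck T x0 i := by
    have := (hpr T x0 z th hctx k hH).1 (1525 + i) (by omega) (by omega)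
    exact this
  have epow : k - t - i = l + 1 := by omega
  rw [epow] at hC
  obtain ⟨q, hqdef⟩ : ∃ q : ℕ, (q : ℤ) = cyc T x0 th k - cyc T x0 th i :=
    ⟨(cyc T x0 th k - cyc T x0 th i).toNat, by omega⟩
  have hqr : (q : ℝ) = (cyc T x0 th k : ℝ) - cyc T x0 th i := by
    have : ((q : ℤ) : ℝ) = ((cyc T x0 th k - cyc T x0 th i : ℤ) : ℝ) := by rw [hqdef]
    push_cast at this
    exact this
  have hdr1r : (cyc T x0 th (k - t) : ℝ) ≤ cyc T x0 th k := by exact_mod_cast hdr1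
  have hC2 : Ck T x0 i ≤ Ck T x0 (k - t) * x0 ^ (l + 1) * (1 + ((q : ℝ) + 1) / 10 ^ 4) := by
    refine le_trans hC (mul_le_mul_of_nonneg_left ?_ (by positivity))
    have : ((cyc T x0 th (k - t) : ℝ) - cyc T x0 th i + 1) / 10 ^ 4 ≤ ((q : ℝ) + 1) / 10 ^ 4 := by
      refine div_le_div_of_nonneg_right ?_ (by positivity)
      linarith
    linarith
  have hD : Dn T (1525 + i) ≤ Ck T x0 i * ((Dt (cell T x0 th i) : ℝ) / 10 ^ 6) := hPP.Dle
  refine le_trans s1 ?_
  rw [div_le_iff₀ hX]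
  have hkap0 : (0 : ℝ) ≤ (kap_ l : ℝ) / 10 ^ 10 := by positivity
  have hDt0 : (0 : ℝ) ≤ (Dt (cell T x0 th i) : ℝ) / 10 ^ 6 := by positivity
  have e1 : (trm T x0 th k (k - t) i : ℝ)
      = (10 ^ 4 + (q : ℝ) + 1) * ((kap_ l : ℝ) * (Dt (cell T x0 th i) : ℝ)) := by
    unfold trm
    have : (cyc T x0 th k - cyc T x0 th i).toNat = q := by omega
    rw [this, ← hldef]
    push_cast
    ring
  calc Dn T (1525 + i) * ((kap_ l : ℝ) / 10 ^ 10)
      ≤ (Ck T x0 i * ((Dt (cell T x0 th i) : ℝ) / 10 ^ 6)) * ((kap_ l : ℝ) / 10 ^ 10) :=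
        mul_le_mul_of_nonneg_right hD hkap0
    _ ≤ ((Ck T x0 (k - t) * x0 ^ (l + 1) * (1 + ((q : ℝ) + 1) / 10 ^ 4))
          * ((Dt (cell T x0 th i) : ℝ) / 10 ^ 6)) * ((kap_ l : ℝ) / 10 ^ 10) :=
        mul_le_mul_of_nonneg_right (mul_le_mul_of_nonneg_right hC2 hDt0) hkap0
    _ = Ck T x0 (k - t) * ((trm T x0 th k (k - t) i : ℝ) / 10 ^ 20) * x0 ^ (l + 1) := by
        rw [e1]
        ring

theorem eone (a : AlgA) (b : NumA) (hw : WrepStmt) (hdr : DriftStmt) (_hba : BackStmt) (hpr : ProdStmt)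
    (hcy : CycbStmt) : EOneStmt := by
  intro T x0 z th hctx k hH hPre t ht hc
  obtain ⟨-, -, -, -, hc304, -⟩ := hcy T x0 z th hctx k
  have hHk : HH T x0 z th (k - t) := fun i hi => hH i (by omega)
  -- facts at k - t
  have hfacts : 0.9 ≤ ‖xin T x0 th (1525 + (k - t))‖ ∧ 0 ≤ ztn T x0 z (1525 + (k - t)) := by
    rcases Nat.eq_zero_or_pos t with h0 | h0
    · subst h0
      rw [Nat.sub_zero]
      exact ⟨hPre.Alo, hPre.zlo⟩
    · have h := hH (k - t) (by omega)
      exact ⟨h.Alo, h.zlo⟩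
  have hne : xin T x0 th (1525 + (k - t)) ≠ 0 := by
    intro h0
    rw [h0, norm_zero] at hfacts
    linarith [hfacts.1]
  have hCk : 0 < Ck T x0 (k - t) :=
    (hpr T x0 z th hctx k hH).1 (1525 + (k - t)) (by omega) (by omega)
  have hW := hw T x0 z th hctx (k - t) hHk hne
  obtain ⟨hW1, -⟩ := abs_le.1 hW
  -- the past
  have hpast : - past T x0 z th (k - t) ≤ Ck T x0 (k - t) * ((Yt (cell T x0 th k + 8 * t) : ℝ) / 10 ^ 10) := by
    unfold past
    rw [← Finset.sum_neg_distrib]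
    have h1 : ∑ i ∈ (Finset.range (k - t)).filter (fun i => k - t ≤ i + 1200),
        - (∑ d ∈ Finset.Icc (1 : ℕ) 55, pd T (1525 + i) d * Gd T x0 z th d (k - t - 1 - i))
        ≤ ∑ i ∈ (Finset.range (k - t)).filter (fun i => k - t ≤ i + 1200),
          Ck T x0 (k - t) * ((trm T x0 th k (k - t) i : ℝ) / 10 ^ 20) := by
      refine Finset.sum_le_sum (fun i hi => ?_)
      rw [Finset.mem_filter, Finset.mem_range] at hi
      exact one_pause a b hdr hpr hctx hH ht hi.1 hi.2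
    refine le_trans h1 ?_
    rw [← Finset.mul_sum, ← Finset.sum_div]
    refine mul_le_mul_of_nonneg_left ?_ hCk.le
    have h2 := sum_trm hdr hcy b hctx hH ht hc
    have h3 : e1sum (cell T x0 th k + 8 * t) ≤ Yt (cell T x0 th k + 8 * t) * 10 ^ 10 := by
      have := b.e1 (cell T x0 th k + 8 * t) (by omega) hc
      unfold e1ok at this
      exact of_decide_eq_true this
    have h4 : ((∑ i ∈ (Finset.range (k - t)).filter (fun i => k - t ≤ i + 1200),
        trm T x0 th k (k - t) i : ℕ) : ℝ) ≤ ((Yt (cell T x0 th k + 8 * t) * 10 ^ 10 : ℕ) : ℝ) :=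
      Nat.cast_le.2 (le_trans h2 h3)
    rw [Nat.cast_sum, Nat.cast_mul, Nat.cast_pow, Nat.cast_ofNat] at h4
    rw [div_le_div_iff₀ (by positivity) (by positivity)]
    calc (∑ i ∈ (Finset.range (k - t)).filter (fun i => k - t ≤ i + 1200),
        (trm T x0 th k (k - t) i : ℝ)) * 10 ^ 10
        ≤ ((Yt (cell T x0 th k + 8 * t) : ℝ) * 10 ^ 10) * 10 ^ 10 :=
          mul_le_mul_of_nonneg_right h4 (by positivity)
      _ = (Yt (cell T x0 th k + 8 * t) : ℝ) * 10 ^ 20 := by ring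
  have hz : 0 ≤ Ck T x0 (k - t) * ztn T x0 z (1525 + (k - t)) := mul_nonneg hCk.le hfacts.2
  have e1 : Ck T x0 (k - t) * (1 - Am T x0 th (k - t) * Real.cos (omg th * pp T x0 th (k - t))
      + ztn T x0 z (1525 + (k - t)))
      = Ck T x0 (k - t) * (1 - Am T x0 th (k - t) * Real.cos (omg th * pp T x0 th (k - t)))
        + Ck T x0 (k - t) * ztn T x0 z (1525 + (k - t)) := by ring
  rw [e1] at hW1
  have e2 : Ck T x0 (k - t) * (1 - Am T x0 th (k - t) * Real.cos (omg th * pp T x0 th (k - t))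
      - (Yt (cell T x0 th k + 8 * t) : ℝ) / 10 ^ 10 - 5 / 10 ^ 4)
      = Ck T x0 (k - t) * (1 - Am T x0 th (k - t) * Real.cos (omg th * pp T x0 th (k - t)))
        - Ck T x0 (k - t) * ((Yt (cell T x0 th k + 8 * t) : ℝ) / 10 ^ 10)
        - 5 / 10 ^ 4 * Ck T x0 (k - t) := by ring
  rw [e2]
  have : 4.5 / 10 ^ 4 * Ck T x0 (k - t) ≤ 5 / 10 ^ 4 * Ck T x0 (k - t) :=
    mul_le_mul_of_nonneg_right (by norm_num) hCk.le
  linarith

end SA.H63
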