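import Pool.Agent.Helper88_SA.StmtP

namespace SA.H63

open Finset

def Wv : ℕ → ℝ := fun q => ((([0, 7649, 861, 386, 225, 224, 224, 224, 144, 92, 62, 39, 22, 12, 8, 8, 8, 7, 6, 5, 4, 3, 2, 1,
  0, 0] : List ℕ).getD q 0 : ℕ) : ℝ)

theorem sum_ext25 (f : ℕ → ℝ) : ∑ q ∈ Finset.Icc (1 : ℕ) 25, f q =
    f 1 + f 2 + f 3 + f 4 + f 5 + f 6 + f 7 + f 8 + f 9 + f 10 + f 11 + f 12 + f 13 + f 14 + f 15
    + f 16 + f 17 + f 18 + f 19 + f 20 + f 21 + f 22 + f 23 + f 24 + f 25 := by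
  have : Finset.Icc (1 : ℕ) 25 = Finset.Ico 1 26 := by decide
  rw [this, Finset.sum_Ico_eq_sum_range]
  simp only [Nat.reduceSub, Finset.sum_range_succ, Finset.sum_range_zero, Nat.reduceAdd, zero_add, Nat.add_zero]

theorem sub_conv (f : ℕ → ℝ) (k : ℕ → ℝ) (j : ℕ) : ∑ q ∈ Finset.Icc (1 : ℕ) 25, f q * k (j + 25 - q) =
    ∑ q ∈ Finset.Icc (1 : ℕ) 25, f q * k (j + (25 - q)) := by
  refine Finset.sum_congr rfl (fun q hq => ?_)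
  rw [Finset.mem_Icc] at hq
  rw [Nat.add_sub_assoc hq.2]

theorem sum_chi (k : ℕ → ℝ) (j : ℕ) : ∑ q ∈ Finset.Icc (1 : ℕ) 25, (chiL.getD q 0 : ℝ) / 10 ^ 4 * k (j + 25 - q) =
    6788 / 10 ^ 4 * k (j + 24) + 475 / 10 ^ 4 * k (j + 23) + 161 / 10 ^ 4 * k (j + 22) + 1 / 10 ^ 4 * k (j + 21) + 0 / 10 ^ 4 * k (j + 20) + 0 / 10 ^ 4 * k (j + 19) + 80 / 10 ^ 4 * k (j + 18) + 52 / 10 ^ 4 * k (j + 17) + 30 / 10 ^ 4 * k (j + 16) + 23 / 10 ^ 4 * k (j + 15) + 17 / 10 ^ 4 * k (j + 14) + 10 / 10 ^ 4 * k (j + 13) + 4 / 10 ^ 4 * k (j + 12) + 0 / 10 ^ 4 * k (j + 11) + 0 / 10 ^ 4 * k (j + 10) + 1 / 10 ^ 4 * k (j + 9) + 1 / 10 ^ 4 * k (j + 8) + 1 / 10 ^ 4 * k (j + 7) + 1 / 10 ^ 4 * k (j + 6) + 1 / 10 ^ 4 * k (j + 5) + 1 / 10 ^ 4 * k (j + 4) + 1 / 10 ^ 4 * k (j + 3) + 1 / 10 ^ 4 * k (j + 2) + 0 / 10 ^ 4 * k (j + 1) + 0 / 10 ^ 4 * k j := by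
  rw [sub_conv (fun q => (chiL.getD q 0 : ℝ) / 10 ^ 4), sum_ext25]
  have c1 : chiL.getD 1 0 = 6788 := rfl
  have c2 : chiL.getD 2 0 = 475 := rfl
  have c3 : chiL.getD 3 0 = 161 := rfl
  have c4 : chiL.getD 4 0 = 1 := rfl
  have c5 : chiL.getD 5 0 = 0 := rfl
  have c6 : chiL.getD 6 0 = 0 := rfl
  have c7 : chiL.getD 7 0 = 80 := rfl
  have c8 : chiL.getD 8 0 = 52 := rfl
  have c9 : chiL.getD 9 0 = 30 := rfl
  have c10 : chiL.getD 10 0 = 23 := rfl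
  have c11 : chiL.getD 11 0 = 17 := rfl
  have c12 : chiL.getD 12 0 = 10 := rfl
  have c13 : chiL.getD 13 0 = 4 := rfl
  have c14 : chiL.getD 14 0 = 0 := rfl
  have c15 : chiL.getD 15 0 = 0 := rfl
  have c16 : chiL.getD 16 0 = 1 := rfl
  have c17 : chiL.getD 17 0 = 1 := rfl
  have c18 : chiL.getD 18 0 = 1 := rfl
  have c19 : chiL.getD 19 0 = 1 := rfl
  have c20 : chiL.getD 20 0 = 1 := rfl
  have c21 : chiL.getD 21 0 = 1 := rfl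
  have c22 : chiL.getD 22 0 = 1 := rfl
  have c23 : chiL.getD 23 0 = 1 := rfl
  have c24 : chiL.getD 24 0 = 0 := rfl
  have c25 : chiL.getD 25 0 = 0 := rfl
  simp only [c1, c2, c3, c4, c5, c6, c7, c8, c9, c10, c11, c12, c13, c14, c15, c16, c17, c18, c19, c20, c21, c22, c23, c24, c25, Nat.reduceSub, Nat.add_zero]
  push_cast
  rfl

theorem sum_W (k : ℕ → ℝ) (j : ℕ) : ∑ q ∈ Finset.Icc (1 : ℕ) 25, Wv q * k (j + 25 - q) =
    7649 * k (j + 24) + 861 * k (j + 23) + 386 * k (j + 22) + 225 * k (j + 21) + 224 * k (j + 20) + 224 * k (j + 19) + 224 * k (j + 18) + 144 * k (j + 17) + 92 * k (j + 16) + 62 * k (j + 15) + 39 * k (j + 14) + 22 * k (j + 13) + 12 * k (j + 12) + 8 * k (j + 11) + 8 * k (j + 10) + 8 * k (j + 9) + 7 * k (j + 8) + 6 * k (j + 7) + 5 * k (j + 6) + 4 * k (j + 5) + 3 * k (j + 4) + 2 * k (j + 3) + 1 * k (j + 2) + 0 * k (j + 1) + 0 * k j :=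 by
  rw [sub_conv Wv, sum_ext25]
  have c1 : Wv 1 = ((7649 : ℕ) : ℝ) := rfl
  have c2 : Wv 2 = ((861 : ℕ) : ℝ) := rfl
  have c3 : Wv 3 = ((386 : ℕ) : ℝ) := rfl
  have c4 : Wv 4 = ((225 : ℕ) : ℝ) := rfl
  have c5 : Wv 5 = ((224 : ℕ) : ℝ) := rfl
  have c6 : Wv 6 = ((224 : ℕ) : ℝ) := rfl
  have c7 : Wv 7 = ((224 : ℕ) : ℝ) := rfl
  have c8 : Wv 8 = ((144 : ℕ) : ℝ) := rfl
  have c9 : Wv 9 = ((92 : ℕ) : ℝ) := rfl
  have c10 : Wv 10 = ((62 : ℕ) : ℝ) := rfl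
  have c11 : Wv 11 = ((39 : ℕ) : ℝ) := rfl
  have c12 : Wv 12 = ((22 : ℕ) : ℝ) := rfl
  have c13 : Wv 13 = ((12 : ℕ) : ℝ) := rfl
  have c14 : Wv 14 = ((8 : ℕ) : ℝ) := rfl
  have c15 : Wv 15 = ((8 : ℕ) : ℝ) := rfl
  have c16 : Wv 16 = ((8 : ℕ) : ℝ) := rfl
  have c17 : Wv 17 = ((7 : ℕ) : ℝ) := rfl
  have c18 : Wv 18 = ((6 : ℕ) : ℝ) := rfl
  have c19 : Wv 19 = ((5 : ℕ) : ℝ) := rfl
  have c20 : Wv 20 = ((4 : ℕ) : ℝ) := rfl
  have c21 : Wv 21 = ((3 : ℕ) : ℝ) := rfl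
  have c22 : Wv 22 = ((2 : ℕ) : ℝ) := rfl
  have c23 : Wv 23 = ((1 : ℕ) : ℝ) := rfl
  have c24 : Wv 24 = ((0 : ℕ) : ℝ) := rfl
  have c25 : Wv 25 = ((0 : ℕ) : ℝ) := rfl
  simp only [c1, c2, c3, c4, c5, c6, c7, c8, c9, c10, c11, c12, c13, c14, c15, c16, c17, c18, c19, c20, c21, c22, c23, c24, c25, Nat.reduceSub, Nat.add_zero]
  push_cast
  rfl

theorem aux1 (y26 y25 k0 k1 k2 k3 k4 k5 k6 k7 k8 k9 k10 k11 k12 k13 k14 k15 k16 k17 k18 k19 k20 k21 k22 k23 k24 k25 : ℝ) (hk0 : 0 ≤ k0) (hk1 : 0 ≤ k1)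
    (hs : k25 ≤ y25 - y26 + 5.14 / 10 ^ 4)
    (h : 12276 / 10 ^ 7 ≤ 1.23 * k25 + (6788 / 10 ^ 4 * k24 + 475 / 10 ^ 4 * k23 + 161 / 10 ^ 4 * k22 + 1 / 10 ^ 4 * k21 + 0 / 10 ^ 4 * k20 + 0 / 10 ^ 4 * k19 + 80 / 10 ^ 4 * k18 + 52 / 10 ^ 4 * k17 + 30 / 10 ^ 4 * k16 + 23 / 10 ^ 4 * k15 + 17 / 10 ^ 4 * k14 + 10 / 10 ^ 4 * k13 + 4 / 10 ^ 4 * k12 + 0 / 10 ^ 4 * k11 + 0 / 10 ^ 4 * k10 + 1 / 10 ^ 4 * k9 + 1 / 10 ^ 4 * k8 + 1 / 10 ^ 4 * k7 + 1 / 10 ^ 4 * k6 + 1 / 10 ^ 4 * k5 + 1 / 10 ^ 4 * k4 + 1 / 10 ^ 4 * k3 + 1 / 10 ^ 4 * k2 + 0 / 10 ^ 4 * k1 + 0 / 10 ^ 4 * k0)) :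
    19949 * y26 + (7649 * k25 + 861 * k24 + 386 * k23 + 225 * k22 + 224 * k21 + 224 * k20 + 224 * k19 + 144 * k18 + 92 * k17 + 62 * k16 + 39 * k15 + 22 * k14 + 12 * k13 + 8 * k12 + 8 * k11 + 8 * k10 + 7 * k9 + 6 * k8 + 5 * k7 + 4 * k6 + 3 * k5 + 2 * k4 + 1 * k3 + 0 * k2 + 0 * k1) ≤ 19949 * y25 + (7649 * k24 + 861 * k23 + 386 * k22 + 225 * k21 + 224 * k20 + 224 * k19 + 224 * k18 + 144 * k17 + 92 * k16 + 62 * k15 + 39 * k14 + 22 * k13 + 12 * k12 + 8 * k11 + 8 * k10 + 8 * k9 + 7 * k8 + 6 * k7 + 5 * k6 + 4 * k5 + 3 * k4 + 2 * k3 + 1 * k2 + 0 * k1 + 0 * k0) := by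
  linarith

theorem aux2 (k3 k4 k5 k6 k7 k8 k9 k10 k11 k12 k13 k14 k15 k16 k17 k18 k19 k20 k21 k22 k23 k24 k25 a3 a4 a5 a6 a7 a8 a9 a10 a11 a12 a13 a14 a15 a16 a17 a18 a19 a20 a21 a22 a23 a24 a25 a26 : ℝ) (hk : 0 ≤ k25) (ha : a25 < 1.056)
    (b1 : k25 ≤ a25 - a26 + 5.14 / 10 ^ 4) (b2 : k24 ≤ a24 - a25 + 5.14 / 10 ^ 4) (b3 : k23 ≤ a23 - a24 + 5.14 / 10 ^ 4) (b4 : k22 ≤ a22 - a23 + 5.14 / 10 ^ 4) (b5 : k21 ≤ a21 - a22 + 5.14 / 10 ^ 4) (b6 : k20 ≤ a20 - a21 + 5.14 / 10 ^ 4) (b7 : k19 ≤ a19 - a20 + 5.14 / 10 ^ 4) (b8 : k18 ≤ a18 - a19 + 5.14 / 10 ^ 4) (b9 : k17 ≤ a17 - a18 + 5.14 / 10 ^ 4) (b10 : k16 ≤ a16 - a17 + 5.14 / 10 ^ 4) (b11 : k15 ≤ a15 - a16 + 5.14 / 10 ^ 4) (b12 : k14 ≤ a14 - a15 + 5.14 / 10 ^ 4) (b13 : k13 ≤ a13 - a14 + 5.14 / 10 ^ 4) (b14 : k12 ≤ a12 - a13 + 5.14 / 10 ^ 4) (b15 : k11 ≤ a11 - a12 + 5.14 / 10 ^ 4) (b16 : k10 ≤ a10 - a11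 + 5.14 / 10 ^ 4) (b17 : k9 ≤ a9 - a10 + 5.14 / 10 ^ 4) (b18 : k8 ≤ a8 - a9 + 5.14 / 10 ^ 4) (b19 : k7 ≤ a7 - a8 + 5.14 / 10 ^ 4) (b20 : k6 ≤ a6 - a7 + 5.14 / 10 ^ 4) (b21 : k5 ≤ a5 - a6 + 5.14 / 10 ^ 4) (b22 : k4 ≤ a4 - a5 + 5.14 / 10 ^ 4) (b23 : k3 ≤ a3 - a4 + 5.14 / 10 ^ 4)
    (c2 : a24 ≤ 1.0573) (c3 : a23 ≤ 1.0573) (c4 : a22 ≤ 1.0573) (c5 : a21 ≤ 1.0573) (c6 : a20 ≤ 1.0573) (c7 : a19 ≤ 1.0573) (c8 : a18 ≤ 1.0573) (c9 : a17 ≤ 1.0573) (c10 : a16 ≤ 1.0573) (c11 : a15 ≤ 1.0573) (c12 : a14 ≤ 1.0573) (c13 : a13 ≤ 1.0573) (c14 : a12 ≤ 1.0573) (c15 : a11 ≤ 1.0573) (c16 : a10 ≤ 1.0573) (c17 : a9 ≤ 1.0573) (c18 : a8 ≤ 1.0573) (c19 : a7 ≤ 1.0573) (c20 : a6 ≤ 1.0573) (c21 : a5 ≤ 1.0573) (c22 : a4 ≤ 1.0573) (c23 : a3 ≤ 1.0573) :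
    19949 * a26 + (7649 * k25 + 861 * k24 + 386 * k23 + 225 * k22 + 224 * k21 + 224 * k20 + 224 * k19 + 144 * k18 + 92 * k17 + 62 * k16 + 39 * k15 + 22 * k14 + 12 * k13 + 8 * k12 + 8 * k11 + 8 * k10 + 7 * k9 + 6 * k8 + 5 * k7 + 4 * k6 + 3 * k5 + 2 * k4 + 1 * k3) ≤ 19949 * 1.0567 := by
  linarith

theorem lyap : LyapStmt := by
  intro J a K hK hstep h0 hA hL
  by_cases hJ : J = 0
  · subst hJ
    linarith
  have hJ1 : 0 < J := Nat.pos_of_ne_zero hJ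
  obtain ⟨k, hk⟩ : ∃ k : ℕ → ℝ, k = fun n => if 25 ≤ n then K (n - 25) else 0 := ⟨_, rfl⟩
  obtain ⟨A, hAd⟩ : ∃ A : ℕ → ℝ, A = fun n => a (n - 25) := ⟨_, rfl⟩
  have hk0 : ∀ n, n < J + 25 → 0 ≤ k n := by
    intro n hn
    rw [hk]
    dsimp only
    split_ifs with h
    · exact hK _ (by omega)
    · exact le_rfl
  have hAle : ∀ n, n < J + 25 → A n ≤ 1.0573 := by
    intro n hn
    rw [hAd]
    exact hA _ (by omega)
  have hkA : ∀ n, n < J + 25 → k n ≤ A n - A (n + 1) + 5.14 / 10 ^ 4 := by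
    intro n hn
    rw [hk, hAd]
    dsimp only
    split_ifs with h
    · have := hstep (n - 25) (by omega)
      have e : n - 25 + 1 = n + 1 - 25 := by omega
      rw [e] at this
      linarith
    · have e1 : n - 25 = 0 := by omega
      have e2 : n + 1 - 25 = 0 := by omega
      rw [e1, e2]
      norm_num
  have hkj : ∀ j, k (j + 25) = K j := by
    intro j
    rw [hk]
    simp
  have hAj : ∀ j, A (j + 25) = a j := by
    intro j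
    rw [hAd]
    simp
  have hterm : ∀ j q, 1 ≤ q → q ≤ 25 →
      (if q ≤ j then (chiL.getD q 0 : ℝ) / 10 ^ 4 * K (j - q) else 0)
        = (chiL.getD q 0 : ℝ) / 10 ^ 4 * k (j + 25 - q) := by
    intro j q h1 h2
    rw [hk]
    dsimp only
    split_ifs with h3 h4 h4
    · have : j + 25 - q - 25 = j - q := by omega
      rw [this]
    · omega
    · omega
    · simp
  have hL2 : ∀ j, 1 ≤ j → j < J → 1.056 ≤ a j → 12276 / 10 ^ 7 ≤ 1.23 * k (j + 25)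
      + ∑ q ∈ Finset.Icc (1 : ℕ) 25, (chiL.getD q 0 : ℝ) / 10 ^ 4 * k (j + 25 - q) := by
    intro j h1 h2 h3
    have h := hL j h1 h2 h3
    rw [hkj]
    have e : ∑ q ∈ Finset.Icc (1 : ℕ) 25, (chiL.getD q 0 : ℝ) / 10 ^ 4 * k (j + 25 - q)
        = ∑ q ∈ Finset.Icc (1 : ℕ) 25, if q ≤ j then (chiL.getD q 0 : ℝ) / 10 ^ 4 * K (j - q) else 0 := by
      refine Finset.sum_congr rfl (fun q hq => ?_)
      rw [Finset.mem_Icc] at hq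
      exact (hterm j q hq.1 hq.2).symm
    rw [e]
    exact h
  obtain ⟨U, hU⟩ : ∃ U : ℕ → ℝ, U = fun j => 19949 * A (j + 25)
      + ∑ q ∈ Finset.Icc (1 : ℕ) 25, Wv q * k (j + 25 - q) := ⟨_, rfl⟩
  have hUstep : ∀ j, 1 ≤ j → j < J → 1.056 ≤ a j → U (j + 1) ≤ U j := by
    intro j h1 h2 h3
    have h := hL2 j h1 h2 h3
    have hs := hkA (j + 25) (by omega)
    have hk24 := hk0 (j + 1) (by omega)
    have hk25 := hk0 j (by omega)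
    rw [sum_chi] at h
    rw [hU]
    dsimp only
    rw [sum_W k (j + 1), sum_W k j]
    have e : ∀ m : ℕ, j + 1 + m = j + (1 + m) := fun m => Nat.add_assoc j 1 m
    have e2 : j + 25 + 1 = j + 26 := rfl
    rw [e2] at hs
    simp only [e, Nat.reduceAdd]
    refine aux1 _ _ _ _ _ _ _ _ _ _ _ _ _ _ _ _ _ _ _ _ _ _ _ _ _ _ _ _ hk25 hk24 hs h
  by_cases hfin : a J < 1.056
  · linarith
  push Not at hfin
  -- last index below 1.056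
  obtain ⟨i, hiJ, hi, hlast⟩ : ∃ i, i < J ∧ a i < 1.056 ∧ ∀ j, i < j → j < J → 1.056 ≤ a j := by
    classical
    let S := (Finset.range J).filter (fun i => a i < 1.056)
    have hne : S.Nonempty := ⟨0, by simp [S, hJ1, h0]⟩
    refine ⟨S.max' hne, ?_, ?_, ?_⟩
    · have := Finset.max'_mem S hne
      simp only [S, Finset.mem_filter, Finset.mem_range] at this
      exact this.1
    · have := Finset.max'_mem S hne
      simp only [S, Finset.mem_filter, Finset.mem_range] at this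
      exact this.2
    · intro j h1 h2
      by_contra h3
      push Not at h3
      have hm : j ∈ S := by simp [S, h2, h3]
      have := Finset.le_max' S j hm
      omega
  have hmono : ∀ m, i + 1 + m ≤ J → U (i + 1 + m) ≤ U (i + 1) := by
    intro m
    induction m with
    | zero => intro _; exact le_rfl
    | succ m ih =>
      intro hm
      have h1 := ih (by omega)
      have h2 := hUstep (i + 1 + m) (by omega) (by omega) (hlast _ (by omega) (by omega))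
      have e : i + 1 + (m + 1) = i + 1 + m + 1 := by omega
      rw [e]
      linarith
  have hUJ : U J ≤ U (i + 1) := by
    have := hmono (J - (i + 1)) (by omega)
    have e : i + 1 + (J - (i + 1)) = J := by omega
    rwa [e] at this
  have hUlow : 19949 * a J ≤ U J := by
    rw [hU]
    dsimp only
    rw [hAj]
    have : 0 ≤ ∑ q ∈ Finset.Icc (1 : ℕ) 25, Wv q * k (J + 25 - q) := by
      refine Finset.sum_nonneg (fun q hq => ?_)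
      rw [Finset.mem_Icc] at hq
      exact mul_nonneg (by unfold Wv; exact Nat.cast_nonneg _) (hk0 _ (by omega))
    linarith
  have hlow0 : ∀ q, 1 ≤ q → q ≤ 25 → k (i + 26 - q) ≤ A (i + 26 - q) - A (i + 26 - q + 1) + 5.14 / 10 ^ 4 :=
    fun q h1 h2 => hkA _ (by omega)
  have hki : 0 ≤ k (i + 25) := hk0 _ (by omega)
  have hs := hkA (i + 25) (by omega)
  have hai : A (i + 25) < 1.056 := by rw [hAj]; exact hi
  have b2 := hkA (i + 24) (by omega)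
  have b3 := hkA (i + 23) (by omega)
  have b4 := hkA (i + 22) (by omega)
  have b5 := hkA (i + 21) (by omega)
  have b6 := hkA (i + 20) (by omega)
  have b7 := hkA (i + 19) (by omega)
  have b8 := hkA (i + 18) (by omega)
  have b9 := hkA (i + 17) (by omega)
  have b10 := hkA (i + 16) (by omega)
  have b11 := hkA (i + 15) (by omega)
  have b12 := hkA (i + 14) (by omega)
  have b13 := hkA (i + 13) (by omega)
  have b14 := hkA (i + 12) (by omega)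
  have b15 := hkA (i + 11) (by omega)
  have b16 := hkA (i + 10) (by omega)
  have b17 := hkA (i + 9) (by omega)
  have b18 := hkA (i + 8) (by omega)
  have b19 := hkA (i + 7) (by omega)
  have b20 := hkA (i + 6) (by omega)
  have b21 := hkA (i + 5) (by omega)
  have b22 := hkA (i + 4) (by omega)
  have b23 := hkA (i + 3) (by omega)
  have c2 := hAle (i + 24) (by omega)
  have c3 := hAle (i + 23) (by omega)
  have c4 := hAle (i + 22) (by omega)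
  have c5 := hAle (i + 21) (by omega)
  have c6 := hAle (i + 20) (by omega)
  have c7 := hAle (i + 19) (by omega)
  have c8 := hAle (i + 18) (by omega)
  have c9 := hAle (i + 17) (by omega)
  have c10 := hAle (i + 16) (by omega)
  have c11 := hAle (i + 15) (by omega)
  have c12 := hAle (i + 14) (by omega)
  have c13 := hAle (i + 13) (by omega)
  have c14 := hAle (i + 12) (by omega)
  have c15 := hAle (i + 11) (by omega)
  have c16 := hAle (i + 10) (by omega)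
  have c17 := hAle (i + 9) (by omega)
  have c18 := hAle (i + 8) (by omega)
  have c19 := hAle (i + 7) (by omega)
  have c20 := hAle (i + 6) (by omega)
  have c21 := hAle (i + 5) (by omega)
  have c22 := hAle (i + 4) (by omega)
  have c23 := hAle (i + 3) (by omega)
  have hUi : U (i + 1) = 19949 * A (i + 26) + (7649 * k (i + 25) + 861 * k (i + 24) + 386 * k (i + 23)
      + 225 * k (i + 22) + 224 * k (i + 21) + 224 * k (i + 20) + 224 * k (i + 19) + 144 * k (i + 18)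
      + 92 * k (i + 17) + 62 * k (i + 16) + 39 * k (i + 15) + 22 * k (i + 14) + 12 * k (i + 13)
      + 8 * k (i + 12) + 8 * k (i + 11) + 8 * k (i + 10) + 7 * k (i + 9) + 6 * k (i + 8) + 5 * k (i + 7)
      + 4 * k (i + 6) + 3 * k (i + 5) + 2 * k (i + 4) + 1 * k (i + 3)) := by
    rw [hU]
    dsimp only
    rw [sum_W k (i + 1)]
    have e : ∀ m : ℕ, i + 1 + m = i + (1 + m) := fun m => Nat.add_assoc i 1 m
    simp only [e, Nat.reduceAdd]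
    ring
  have e26 : i + 25 + 1 = i + 26 := by omega
  rw [e26] at hs
  simp only [add_assoc, Nat.reduceAdd] at b2 b3 b4 b5 b6 b7 b8 b9 b10 b11 b12 b13 b14 b15 b16 b17 b18 b19 b20 b21 b22 b23
  have hfinal : 19949 * a J ≤ 19949 * 1.0567 := by
    refine le_trans hUlow (le_trans hUJ ?_)
    rw [hUi]
    exact aux2 _ _ _ _ _ _ _ _ _ _ _ _ _ _ _ _ _ _ _ _ _ _ _ _ _ _ _ _ _ _ _ _ _ _ _ _ _ _ _ _ _ _ _ _ _ _ _ hki hai hs b2 b3 b4 b5 b6 b7 b8 b9 b10 b11 b12 b13 b14 b15 b16 b17 b18 b19 b20 b21 b22 b23 c2 c3 c4 c5 c6 c7 c8 c9 c10 c11 c12 c13 c14 c15 c16 c17 c18 c19 c20 c21 c22 c23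
  linarith

end SA.H63
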